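import Pool.Agent.H95.MinMaxC

/-!
# The root value of the noisy min-max tree game at criticality

For all large `d` there is exactly one critical point, and at the critical point the root value
converges in distribution to a law whose CDF is an unstable fixed point of `Ψ`, different from
`L₀` and `L₀ + 2`.
-/

namespace Pool.Agent.Results.MP_398e29_pr.CriticalRoot

open MeasureTheory ProbabilityTheory Filter Topology
open Pool.Agent.H95.MinMax

noncomputable section

/-- orbits are constant far out -/
lemma orb_far_low {d : ℕ} (hd : Big d) (p : ℝ) (n : ℕ) :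
    ∀ k : ℤ, k < -(n : ℤ) → orb d p n k = 0 := by
  have h0 : d ≠ 0 := by have := hd.big; omega
  induction n with
  | zero =>
    intro k hk
    have : k < 0 := by simpa using hk
    simp [orb, prof, this]
  | succ n ih =>
    intro k hk
    push_cast at hk
    rw [orb_succ]
    unfold psi
    rw [ih (k - 1) (by omega), ih k (by omega), ih (k + 1) (by omega)]
    unfold g
    norm_num
    exact h0

lemma orb_far_high {d : ℕ} (hd : Big d) (p : ℝ) (n : ℕ) :
    ∀ k : ℤ, (n : ℤ) < k → orb d p n k = 1 := by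
  have h0 : d ≠ 0 := by have := hd.big; omega
  induction n with
  | zero =>
    intro k hk
    have h1 : ¬ k < 0 := by simp at hk; omega
    have h2 : ¬ k = 0 := by simp at hk; omega
    simp [orb, prof, h1, h2]
  | succ n ih =>
    intro k hk
    push_cast at hk
    rw [orb_succ]
    unfold psi
    rw [ih (k - 1) (by omega), ih k (by omega), ih (k + 1) (by omega)]
    unfold g
    norm_num [h0]

/-- the ℤ-indexed profile of a half-index profile -/
def dbl (f : ℤ → ℝ) : ℤ → ℝ := fun i => f (i / 2)

lemma isCDF_orb {d : ℕ} (hd : Big d) {p : ℝ} (hp : U01 p) (n : ℕ) : IsCDF (dbl (orb d p n)) := by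
  refine ⟨?_, ?_, ?_⟩
  · intro a b hab
    exact orb_mono hp n (Int.ediv_le_ediv (by norm_num) hab)
  · apply tendsto_const_nhds.congr'
    filter_upwards [eventually_lt_atBot (-2 * (n : ℤ) - 2)] with i hi
    exact (orb_far_low hd p n (i / 2) (by omega)).symm
  · apply tendsto_const_nhds.congr'
    filter_upwards [eventually_gt_atTop (2 * (n : ℤ) + 2)] with i hi
    exact (orb_far_high hd p n (i / 2) (by omega)).symm

/-- uniform limits of orbit profiles are CDFs -/
lemma isCDF_limit {d : ℕ} (hd : Big d) {p : ℝ} (hp : U01 p) {U : ℤ → ℝ}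
    (h1 : ∀ n k, |orb d p n k - U k| ≤ 2 * (1 / 2) ^ n)
    (h2 : ∀ k, Tendsto (fun n => orb d p n k) atTop (𝓝 (U k))) : IsCDF (dbl U) := by
  have hsmall : ∀ ε > (0 : ℝ), ∃ n : ℕ, 2 * (1 / 2 : ℝ) ^ n < ε := by
    intro ε hε
    obtain ⟨n, hn⟩ := exists_pow_lt_of_lt_one (show 0 < ε / 2 by linarith)
      (show (1 / 2 : ℝ) < 1 by norm_num)
    exact ⟨n, by linarith⟩
  refine ⟨?_, ?_, ?_⟩
  · intro a b hab
    exact le_of_tendsto_of_tendsto' (h2 _) (h2 _) fun n =>
      orb_mono hp n (Int.ediv_le_ediv (by norm_num) hab)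
  · rw [Metric.tendsto_nhds]
    intro ε hε
    obtain ⟨n, hn⟩ := hsmall ε hε
    filter_upwards [eventually_lt_atBot (-2 * (n : ℤ) - 2)] with i hi
    have := h1 n (i / 2)
    rw [orb_far_low hd p n (i / 2) (by omega)] at this
    rw [Real.dist_eq, abs_sub_comm]
    exact this.trans_lt hn
  · rw [Metric.tendsto_nhds]
    intro ε hε
    obtain ⟨n, hn⟩ := hsmall ε hε
    filter_upwards [eventually_gt_atTop (2 * (n : ℤ) + 2)] with i hi
    have := h1 n (i / 2)
    rw [orb_far_high hd p n (i / 2) (by omega)] at this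
    rw [Real.dist_eq, abs_sub_comm]
    exact this.trans_lt hn

lemma psi_limit {d : ℕ} {p : ℝ} {U : ℤ → ℝ}
    (h2 : ∀ k, Tendsto (fun n => orb d p n k) atTop (𝓝 (U k))) : psi d U = U := by
  funext k
  have h3 : Tendsto (fun n => orb d p (n + 1) k) atTop (𝓝 (U k)) :=
    (tendsto_add_atTop_iff_nat 1).2 (h2 k)
  have h4 : Tendsto (fun n => orb d p (n + 1) k) atTop (𝓝 (psi d U k)) := by
    simp only [orb_succ]
    unfold psi g
    exact (((tendsto_const_nhds.sub (tendsto_const_nhds.mul
      ((tendsto_const_nhds.sub (((h2 _).add (h2 _)).div_const 2)).pow d))).sub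
      (tendsto_const_nhds.mul
      ((tendsto_const_nhds.sub (((h2 _).add (h2 _)).div_const 2)).pow d))).pow d)
  exact tendsto_nhds_unique h4 h3

lemma Psi_dbl (d : ℕ) (f : ℤ → ℝ) : Psi d (dbl f) = dbl (psi d f) := Psi_half d f

lemma Psi_iter_orb (d : ℕ) (p : ℝ) (n m : ℕ) :
    (Psi d)^[m] (dbl (orb d p n)) = dbl (orb d p (n + m)) := by
  induction m with
  | zero => rfl
  | succ m ih => rw [Function.iterate_succ_apply', ih, Psi_dbl]; rfl

/-- summary for a fixed large `d` -/
theorem main {d : ℕ} (hd : Big d) :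
    (∃! pc : ℝ, IsCritical d pc) ∧
    ∀ pc : ℝ, IsCritical d pc → ∃ U : ℤ → ℝ,
      IsCDF U ∧ ConvergesTo (rootCDF d pc) U ∧ IsUnstableFixedPoint d U ∧
      ∀ L : ℤ → ℝ, IsLZero d L → U ≠ L ∧ U ≠ shiftTwo L := by
  have hd1 : 1 ≤ d := by have := hd.big; omega
  obtain ⟨ell, he1, he2⟩ := exists_ell hd
  have heta := hd.eta_le
  -- the limit law for zero boundary values
  have hL : IsLZero d (dbl ell) := by
    refine ⟨isCDF_limit hd U01_one he1 he2, fun i => ?_⟩
    simp only [rootCDF_eq hd1 U01_one]
    exact he2 _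
  have hLuniq : ∀ L, IsLZero d L → L = dbl ell := by
    intro L hL'
    funext i
    exact tendsto_nhds_unique (hL'.2 i) (hL.2 i)
  have hell0 : 1 - 1 / (d : ℝ) ^ 2 ≤ ell 0 :=
    ge_of_tendsto' (he2 0) fun n => (reg_orb_one hd n).high 0 (le_refl _)
  have hellm : ell (-1) ≤ 1 / (d : ℝ) ^ 2 :=
    le_of_tendsto' (he2 (-1)) fun n => (reg_orb_one hd n).low (-1) (by norm_num)
  have hdbl0 : dbl ell 0 = ell 0 := rfl
  have hsh0 : shiftTwo (dbl ell) 0 = ell (-1) := rfl
  have hLne : dbl ell ≠ shiftTwo (dbl ell) := by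
    intro h
    have := congrFun h 0
    rw [hdbl0, hsh0] at this
    linarith
  have hell2 : Tendsto (fun n => orb d 0 n 0) atTop (𝓝 (ell (-1))) := by
    have := he2 (-1)
    refine this.congr fun n => ?_
    rw [orb_zero_shift]
    norm_num
  -- limits for escaping parameters
  have hlow : ∀ p, U01 p → Low d p → ConvergesTo (rootCDF d p) (shiftTwo (dbl ell)) := by
    intro p hp h i
    simp only [rootCDF_eq hd1 hp]
    have h1 := low_limit hd hp h (i / 2)
    have h2 : Tendsto (fun n => orb d 0 n (i / 2)) atTop (𝓝 (shiftTwo (dbl ell) i)) := by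
      have h3 := he2 (i / 2 - 1)
      have h4 : shiftTwo (dbl ell) i = ell (i / 2 - 1) := by
        unfold shiftTwo dbl
        congr 1
        omega
      rw [h4]
      refine h3.congr fun n => ?_
      rw [orb_zero_shift]
    have h5 := h1.add h2
    simpa using h5
  have hhigh : ∀ p, U01 p → High d p → ConvergesTo (rootCDF d p) (dbl ell) := by
    intro p hp h i
    simp only [rootCDF_eq hd1 hp]
    have h1 := high_limit hd hp h (i / 2)
    have h2 : Tendsto (fun n => orb d 1 n (i / 2)) atTop (𝓝 (dbl ell i)) := he2 (i / 2)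
    have h5 := h1.add h2
    simpa using h5
  have hconf : ∀ p, ConvergesTo (rootCDF d p) (dbl ell) →
      ConvergesTo (rootCDF d p) (shiftTwo (dbl ell)) → False := by
    intro p h1 h2
    apply hLne
    funext i
    exact tendsto_nhds_unique (h1 i) (h2 i)
  -- critical points do not escape
  have hcrit : ∀ pc, IsCritical d pc → ¬ Low d pc ∧ ¬ High d pc := by
    rintro pc ⟨h0, h1, L, hL', hside⟩
    have hLe := hLuniq L hL'
    subst hLe
    have hpU : U01 pc := ⟨h0.le, h1.le⟩
    constructor
    · intro h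
      obtain ⟨ε, hε, hε'⟩ := low_open hd hpU h
      set q := min 1 (pc + ε) with hq
      have hq1 : pc < q := lt_min h1 (by linarith)
      have hq2 : q ≤ 1 := min_le_left _ _
      have hq3 : q ≤ pc + ε := min_le_right _ _
      have hqU : U01 q := ⟨by linarith, hq2⟩
      have hLq := hε' q hqU (by rw [abs_le]; constructor <;> linarith)
      have hL0 : Low d 0 := low_mono U01_zero hpU h0.le h
      rcases hside with ⟨_, h3⟩ | ⟨h3, _⟩
      · exact hconf q (h3 q hq1 hq2) (hlow q hqU hLq)
      · exact hconf 0 (h3 0 (le_refl _) h0) (hlow 0 U01_zero hL0)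
    · intro h
      obtain ⟨ε, hε, hε'⟩ := high_open hd hpU h
      set q := max 0 (pc - ε) with hq
      have hq1 : q < pc := max_lt h0 (by linarith)
      have hq2 : 0 ≤ q := le_max_left _ _
      have hq3 : pc - ε ≤ q := le_max_right _ _
      have hqU : U01 q := ⟨hq2, by linarith⟩
      have hHq := hε' q hqU (by rw [abs_le]; constructor <;> linarith)
      rcases hside with ⟨h3, _⟩ | ⟨_, h3⟩
      · exact hconf q (hhigh q hqU hHq) (h3 q hq2 hq1)
      · exact hconf 1 (hhigh 1 U01_one high_one) (h3 1 h1 (le_refl _))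
  constructor
  · -- existence and uniqueness of the critical point
    obtain ⟨pc, h0, h1, hnl, hnh, hb, ha⟩ := exists_crit hd
    refine ⟨pc, ⟨h0, h1, dbl ell, hL, Or.inl ⟨?_, ?_⟩⟩, ?_⟩
    · intro p hp0 hp
      exact hlow p ⟨hp0, by linarith⟩ (hb p hp0 hp)
    · intro p hp hp1
      exact hhigh p ⟨by linarith, hp1⟩ (ha p hp hp1)
    · intro pc' hc'
      obtain ⟨hnl', hnh'⟩ := hcrit pc' hc'
      rcases lt_trichotomy pc' pc with h | h | h
      · exact absurd (hb pc' hc'.1.le h) hnl'
      · exact h
      · exact absurd (ha pc' h hc'.2.1.le) hnh'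
  · intro pc hc
    obtain ⟨hnl, hnh⟩ := hcrit pc hc
    have hpU : U01 pc := ⟨hc.1.le, hc.2.1.le⟩
    have hgood := good_orb hd hpU hnl hnh
    obtain ⟨U, hU1, hU2⟩ := hgood.exists_limit hd
    have hU0 : U 0 ≤ 1 / 4 := le_of_tendsto' (hU2 0) fun n => hgood.win_high n
    have hU0' : 64 / (d : ℝ) ≤ U 0 := ge_of_tendsto' (hU2 0) fun n => hgood.win_low n
    have hpsi := psi_limit hU2
    have hfix : Psi d (dbl U) = dbl U := by rw [Psi_dbl, hpsi]
    have hdblU : dbl U 0 = U 0 := rfl
    refine ⟨dbl U, isCDF_limit hd hpU hU1 hU2, ?_, ⟨hfix, ?_⟩, ?_⟩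
    · intro i
      simp only [rootCDF_eq hd1 hpU]
      exact hU2 _
    · rintro ⟨_, ε, hε, hstab⟩
      obtain ⟨n, hn⟩ := exists_pow_lt_of_lt_one (show 0 < ε / 4 by linarith)
        (show (1 / 2 : ℝ) < 1 by norm_num)
      obtain ⟨pc', h0, h1, hnl', hnh', hb, ha⟩ := exists_crit hd
      have hpp : pc' = pc := by
        rcases lt_trichotomy pc pc' with h | h | h
        · exact absurd (hb pc hc.1.le h) hnl
        · exact h.symm
        · exact absurd (ha pc h hc.2.1.le) hnh
      subst hpp
      have hdpos := hd.pos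
      set δ := ε / 2 / ((d : ℝ) ^ 2) ^ n with hδ
      have hδ0 : 0 < δ := by positivity
      set q := min 1 (pc' + δ) with hq
      have hq1 : pc' < q := lt_min h1 (by linarith)
      have hq2 : q ≤ 1 := min_le_left _ _
      have hq3 : q ≤ pc' + δ := min_le_right _ _
      have hqU : U01 q := ⟨by linarith, hq2⟩
      have hclose : ∀ i, |dbl (orb d q n) i - dbl U i| ≤ ε := by
        intro i
        have e1 := orb_lip_p (d := d) hpU hqU n (i / 2)
        have e2 := hU1 n (i / 2)
        have e3 : ((d : ℝ) ^ 2) ^ n * |q - pc'| ≤ ε / 2 := by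
          calc ((d : ℝ) ^ 2) ^ n * |q - pc'| ≤ ((d : ℝ) ^ 2) ^ n * δ := by
                gcongr
                rw [abs_le]
                constructor <;> linarith
            _ = ε / 2 := by rw [hδ]; field_simp
        have e4 := abs_le.1 (e1.trans e3)
        have e5 := abs_le.1 e2
        unfold dbl
        rw [abs_le]
        constructor <;> linarith [e4.1, e4.2, e5.1, e5.2]
      have h6 := hstab (dbl (orb d q n)) (isCDF_orb hd hqU n) hclose 0
      simp only [Psi_iter_orb] at h6
      have h7 : Tendsto (fun m => dbl (orb d q (n + m)) 0) atTop (𝓝 (ell 0)) := by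
        have h8 := hhigh q hqU (ha q hq1 hq2) 0
        simp only [rootCDF_eq hd1 hqU] at h8
        have h9 := (tendsto_add_atTop_iff_nat n).2 h8
        refine h9.congr fun m => ?_
        unfold dbl
        rw [add_comm m n]
      have h8 := tendsto_nhds_unique h6 h7
      rw [hdblU] at h8
      linarith
    · intro L hL'
      rw [hLuniq L hL']
      constructor
      · intro h
        have := congrFun h 0
        rw [hdblU, hdbl0] at this
        linarith
      · intro h
        have := congrFun h 0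
        rw [hdblU, hsh0] at this
        have hpos := hd.pos
        have hc := hd.cast
        have h2 : 1 / (d : ℝ) ^ 2 ≤ 1 / d := by
          apply one_div_le_one_div_of_le hpos
          nlinarith
        have h3 : 64 / (d : ℝ) = 64 * (1 / d) := by ring
        have h4 : 0 < 1 / (d : ℝ) := by positivity
        rw [h3] at hU0'
        linarith

/-- **Full answer to Q1.** There is `d₀` such that for every `d ≥ d₀` there is exactly one critical
point, and at every critical point `pc` the root value `V_n^{(pc)}` converges in distribution to a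
law whose CDF `U` is an unstable fixed point of `Ψ`, different from `L₀` and from `L₀ + 2`. -/
theorem result :
    ∃ d₀ : ℕ, ∀ d : ℕ, d₀ ≤ d →
      (∃! pc : ℝ, IsCritical d pc) ∧
      ∀ pc : ℝ, IsCritical d pc → ∃ U : ℤ → ℝ,
        IsCDF U ∧ ConvergesTo (rootCDF d pc) U ∧ IsUnstableFixedPoint d U ∧
        ∀ L : ℤ → ℝ, IsLZero d L → U ≠ L ∧ U ≠ shiftTwo L := by
  obtain ⟨d₀, h⟩ := eventually_big
  exact ⟨d₀, fun d hd => main (h d hd)⟩

end

end Pool.Agent.Results.MP_398e29_pr.CriticalRoot
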